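import Pool.Agent.Results.MP_130685_nt.RandomMaps
import Pool.Agent.N666.TM.Crit
import Pool.Agent.U828.KD.Ord

/-!
# MP_130685_nt: Zilber-Pink in `Y(1)^n` for a positive proportion of the pull-backs under rational maps whose
coefficients are the integer parts of arbitrary functions of given orders

As in the starting results `RandomMaps`, `ThinMaps` let `V` be any irreducible subvariety of `ℂ^m`, `m ≥ 1`, let
`D` be any multidegree, and let a vector `c` of integers, indexed by `(j, s, e)`, `j < m`, `s < 2`, `e ≤ D`,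
give the rational map `F_c` from `Y(1)^n = ℂ^n` to `ℂ^m` with the numerators `∑_e c(j, 0, e) x^e` and the
denominators `∑_e c(j, 1, e) x^e`. Here every coefficient is the integer part `⌊f_k(t)⌋` of an ARBITRARY function
of a given order `γ_k > 0`: for one `d > γ_k` its differences of order `d` have a constant sign and are
`t ^ (γ_k - d + o(1))` in absolute value; the orders of different coefficients are different. No smoothness is
assumed (`ThinMaps`: generalised polynomials with non-integral leading exponents).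

**Theorem.** There is a number `δ > 0`, which depends only on `V`, `D`, a finite set `Γ` of complex numbers and a
residue class `c₀` modulo `Q₀`, such that for ALL such sequences and all sufficiently large `N`, for at least
`δ N` of the integers `t` in `(N, 2 N]` the vector `c = c(t)` is in the given residue class and the pull-back
`F_c⁻¹(V)` has the expected dimension and no atypical subvariety.

The local criterion is the one of the starting files (`exists_class`); the equidistribution of the integer parts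
is `Pool.Agent.U828.KD.order_well`.
-/

set_option autoImplicit false

namespace Pool.Agent.Results.MP_130685_nt.FunctionsOfGivenOrder

open H294ZP UpperHalfPlane MvPolynomial Pool.Agent.W282.ZP RandomMaps

/-- The differences of order `d` of `f` have a constant sign and are `t ^ (c - d + o(1))` in absolute value. -/
def Order (d : ℕ) (c : ℝ) (f : ℕ → ℝ) : Prop :=
  ∀ ε : ℝ, 0 < ε → ∃ T : ℕ,
    (∀ t : ℕ, T ≤ t → (t : ℝ) ^ (c - d - ε) ≤ (fwdDiff 1)^[d] f t ∧
      (fwdDiff 1)^[d] f t ≤ (t : ℝ) ^ (c - d + ε)) ∨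
    (∀ t : ℕ, T ≤ t → (t : ℝ) ^ (c - d - ε) ≤ -(fwdDiff 1)^[d] f t ∧
      -(fwdDiff 1)^[d] f t ≤ (t : ℝ) ^ (c - d + ε))

/-- The integer parts of the values at `t`. -/
noncomputable def floors {κ : Type} (f : κ → ℕ → ℝ) (t : ℕ) (k : κ) : ℤ := ⌊f k t⌋

/-- The pull-back of `V ⊂ ℂ^m` under the rational map with the coefficient vector `c` has only typical
intersections with the special subvarieties of `Y(1)^n`. -/
def Typical {n m : ℕ} {D : Fin n → ℕ} (V : Set (Fin m → ℂ)) (Γ : Finset ℂ) (c : Coeffs m D) : Prop :=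
  ∀ (r : ℕ) (Z : ModularDatum Γ n r) (A : Set (Fin n → ℂ)), A ⊆ zcl (pullback c V) →
    A ⊆ Z.locus → (idealOf A).IsPrime → zdim A + (m : Cardinal) ≤ zdim V + (r : Cardinal)

/-- The local criterion: all members of a residue class are good (starting files). -/
theorem exists_class {n m : ℕ} (V : Set (Fin m → ℂ)) (hV : (idealOf V).IsPrime) (D : Fin n → ℕ)
    (Γ : Finset ℂ) (Q₀ : ℕ) (hQ₀ : 0 < Q₀) (c₀ : Coeffs m D) :
    ∃ (Q : ℕ) (G : Coeffs m D), 0 < Q ∧ ∀ c : Coeffs m D, (∀ k, (Q : ℤ) ∣ c k - G k) →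
      (∀ k, (Q₀ : ℤ) ∣ c k - c₀ k) ∧ Typical V Γ c := by
  classical
  have hfin : Algebra.trdeg ℂ (MvPolynomial (Fin m) ℂ ⧸ idealOf V) < Cardinal.aleph0 :=
    trdeg_lt_aleph0_of_finiteType
  obtain ⟨d, hd⟩ := Cardinal.lt_aleph0.1 hfin
  obtain ⟨Q, G, hQ, hmain⟩ := exists_class_rat D (idealOf V) hd Γ Q₀ hQ₀ c₀
  refine ⟨Q, G, hQ, fun c hc => ?_⟩
  obtain ⟨hc0, hkey⟩ := hmain c hc
  refine ⟨hc0, ?_⟩
  intro r Z A hAW hAZ hA
  obtain ⟨K, _, _, z, hz, T, hT, hdim⟩ := generic_point (idealOf A)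
  have haev : ∀ (j : Fin m) (s : Fin 2) (y : Fin n → ℂ),
      aeval y (mev (fun e => c (j, s, e)) (X : Fin n → MvPolynomial (Fin n) ℂ)) =
        mev (fun e => c (j, s, e)) y := by
    intro j s y
    have h := map_mev (aeval y : MvPolynomial (Fin n) ℂ →ₐ[ℂ] ℂ).toRingHom
      (fun e => c (j, s, e)) (X : Fin n → MvPolynomial (Fin n) ℂ)
    change aeval y _ = mev _ (fun i => aeval y (X i)) at h
    rw [h]
    simp only [aeval_X]
  have hpull : ∀ (J : Finset (Fin m)) (f : MvPolynomial J ℂ),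
      rename (Subtype.val : J → Fin m) f ∈ idealOf V → aeval z (gpull
        (fun j => mev (fun e => c (j, 0, e)) (X : Fin n → MvPolynomial (Fin n) ℂ))
        (fun j => mev (fun e => c (j, 1, e)) (X : Fin n → MvPolynomial (Fin n) ℂ)) f) = 0 := by
    intro J f hf
    rw [hz, mem_idealOf]
    intro x hx
    refine hAW hx _ (mem_idealOf.2 fun y hy => ?_)
    rw [← aeval_eq_eval]
    change aeval y (gpull _ _ f) = 0
    rw [aeval_gpull _ _ f y (fun j _ => by rw [haev]; exact hy.1 j)]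
    simp only [haev]
    have h1 := mem_idealOf.1 hf _ hy.2
    rw [eval_rename] at h1
    rw [aeval_eq_eval]
    have h2 : eval (fun j : J => mev (fun e => c (j, 0, e)) y / mev (fun e => c (j, 1, e)) y) f
        = 0 := h1
    change _ * eval (fun j : J => mev (fun e => c (j, 0, e)) y / mev (fun e => c (j, 1, e)) y) f
        = 0
    rw [h2, mul_zero]
  have hconst : ∀ i, Z.cls i = none → ∃ c : ℂ, IsIntegral (Algebra.adjoin ℤ (Γ : Set ℂ)) c ∧
      z i = algebraMap ℂ K c := by
    intro i hi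
    refine ⟨Z.const i, (Z.allowed i).isIntegral, ?_⟩
    · have h1 : (X i - C (Z.const i) : MvPolynomial (Fin n) ℂ) ∈ idealOf A := by
        rw [mem_idealOf]
        intro x hx
        obtain ⟨w, hw⟩ := hAZ hx
        have h2 := (hw i).1 hi
        simp only [map_sub, eval_X, eval_C]
        exact sub_eq_zero.2 h2
      have h2 := (hz _).2 h1
      rw [map_sub, aeval_X, aeval_C, sub_eq_zero] at h2
      exact h2
  have hrel : ∀ i i' l, Z.cls i = some l → Z.cls i' = some l → Polynomial.eval₂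
      (Polynomial.aeval (z i) : Polynomial ℂ →ₐ[ℂ] K).toRingHom (z i')
        (Psi ((Z.mat i).det * (Z.mat i').det).toNat) = 0 := by
    intro i i' l hi hi'
    rw [← aeval_relPoly, hz, mem_idealOf]
    intro x hx
    obtain ⟨w, hw⟩ := hAZ hx
    obtain ⟨w1, h1, h2⟩ := (hw i).2 l hi
    obtain ⟨w2, h3, h4⟩ := (hw i').2 l hi'
    exact eval_relPoly_eq_zero (Z.det_pos i) (Z.det_pos i') h1 h3 h2 h4
  have hN : ∀ i i', 0 < ((Z.mat i).det * (Z.mat i').det).toNat := by
    intro i i'
    have := mul_pos (Z.det_pos i) (Z.det_pos i')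
    omega
  have hfinal := hkey K z hpull r Z.cls _ hN hconst hrel T hT
  have h1 : zdim A ≤ (T.card : Cardinal) := hdim
  calc zdim A + (m : Cardinal) ≤ (T.card : Cardinal) + (m : Cardinal) := by gcongr
    _ = ((T.card + m : ℕ) : Cardinal) := by push_cast; rfl
    _ ≤ ((r + d : ℕ) : Cardinal) := by exact_mod_cast hfinal
    _ = zdim V + (r : Cardinal) := by
      rw [zdim, hd]; push_cast; rw [add_comm]


section

variable {ι : Type} [Fintype ι]

open Pool.Agent.N666.TM Pool.Agent.Y722.HS in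
/-- A well distributed sequence has the right proportion in every residue class. -/
theorem many {S : ℕ → Finset ℕ} {x : ℕ → ι → ℤ} {κ : ℝ} (hκ : 0 < κ)
    (hw : ∃ N₀ : ℕ, ∀ N : ℕ, N₀ ≤ N → ∀ H : ℕ, (H : ℝ) ≤ (N : ℝ) ^ κ → Well (S N) x H)
    (q : ℕ) (hq : 0 < q) (G : ι → ℤ) (T : (ι → ℤ) → Prop)
    (hT : ∀ c : ι → ℤ, (∀ k, (q : ℤ) ∣ c k - G k) → T c) :
    ∃ N₀ : ℕ, ∀ N : ℕ, N₀ ≤ N →
      1 / (2 * (q : ℝ) ^ Fintype.card ι) * ((S N).card : ℝ) ≤
        (({t : ℕ | t ∈ S N ∧ T (x t)}.ncard : ℕ) : ℝ) := by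
  classical
  obtain ⟨N₁, hN₁⟩ := hw
  have hev : ∀ᶠ N : ℕ in Filter.atTop, (q : ℝ) ≤ (N : ℝ) ^ κ := by
    have h1 : Filter.Tendsto (fun N : ℕ => (N : ℝ) ^ κ) Filter.atTop Filter.atTop :=
      (tendsto_rpow_atTop hκ).comp tendsto_natCast_atTop_atTop
    exact h1.eventually_ge_atTop _
  obtain ⟨N₂, hN₂⟩ := Filter.eventually_atTop.mp hev
  refine ⟨max N₁ N₂, fun N hN => ?_⟩
  have hws := hN₁ N ((le_max_left _ _).trans hN) q (hN₂ N ((le_max_right _ _).trans hN))
  have hd := hws.dist q hq (by omega) (red q G)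
  have hs : (0 : ℝ) < (S N).card := by exact_mod_cast hws.pos
  set M : ℝ := (q : ℝ) ^ Fintype.card ι with hM
  have hM0 : 0 < M := by positivity
  have h1 : (1 : ℝ) / (2 * q + 1) ≤ 1 / 2 := by
    have : (1 : ℝ) ≤ q := by exact_mod_cast hq
    apply one_div_le_one_div_of_le (by norm_num); linarith
  have h2 := (abs_le.1 hd).1
  have h3 : 1 / (2 * M) ≤ (((S N).filter fun n => red q (x n) = red q G).card : ℝ) / (S N).card := by
    have h4 : 1 / (2 * (q : ℝ) + 1) * (1 / M) ≤ 1 / 2 * (1 / M) :=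
      mul_le_mul_of_nonneg_right h1 (by positivity)
    have h5 : 1 / (2 * M) = 1 / 2 * (1 / M) := by field_simp
    rw [h5]
    linarith
  rw [le_div_iff₀ hs] at h3
  refine h3.trans (Nat.cast_le.2 ?_)
  have hfin : {t : ℕ | t ∈ S N ∧ T (x t)}.Finite := (Finset.finite_toSet (S N)).subset fun t ht => ht.1
  rw [← Set.ncard_coe_finset]
  refine Set.ncard_le_ncard ?_ hfin
  intro t ht
  rw [Finset.mem_coe, Finset.mem_filter] at ht
  refine ⟨ht.1, hT _ fun k => ?_⟩
  have h6 := congrFun ht.2 k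
  simp only [red] at h6
  rw [← ZMod.intCast_zmod_eq_zero_iff_dvd, Int.cast_sub, h6, sub_self]

end

/-- **Zilber-Pink for a positive proportion of the maps with coefficients of given orders.** For every irreducible
`V ⊂ ℂ^m`, `m ≥ 1`, every multidegree `D`, every finite set `Γ` and every residue class modulo `Q₀` there is
`δ > 0` such that for all vectors `f` of arbitrary functions of different orders and all large `N`, at least `δ N`
of the integers in `(N, 2 N]` give a vector `⌊f(t)⌋` in the residue class for which the pull-back of `V` has only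
typical intersections with the special subvarieties. -/
theorem result (n m : ℕ) (hm : 0 < m) (V : Set (Fin m → ℂ)) (hV : (idealOf V).IsPrime) (D : Fin n → ℕ)
    (Γ : Finset ℂ) (Q₀ : ℕ) (hQ₀ : 0 < Q₀) (c₀ : Coeffs m D) :
    ∃ δ : ℝ, 0 < δ ∧ ∀ (d : ℕ) (γ : Fin m × Fin 2 × Expo D → ℝ) (f : Fin m × Fin 2 × Expo D → ℕ → ℝ), 2 ≤ d →
      Function.Injective γ → (∀ k, 0 < γ k ∧ γ k < d ∧ Order d (γ k) (f k)) →
      ∃ N₀ : ℕ, ∀ N : ℕ, N₀ ≤ N →
        δ * N ≤ ({t : ℕ | t ∈ Finset.Ioc N (2 * N) ∧ (∀ k, (Q₀ : ℤ) ∣ floors f t k - c₀ k) ∧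
          Typical V Γ (floors f t : Coeffs m D)}.ncard : ℝ) := by
  classical
  obtain ⟨Q, G, hQ, hclass⟩ := exists_class V hV D Γ Q₀ hQ₀ c₀
  refine ⟨1 / (2 * (Q : ℝ) ^ Fintype.card (Fin m × Fin 2 × Expo D)), by positivity, ?_⟩
  intro d γ f hd hγ h
  have : Nonempty (Fin m × Fin 2 × Expo D) := ⟨(⟨0, hm⟩, 0, Classical.arbitrary _)⟩
  obtain ⟨κ₁, hκ₁, h₁⟩ := Pool.Agent.U828.KD.order_well d hd γ hγ (fun k => (h k).1) (fun k => (h k).2.1) f
    (fun k => (h k).2.2)
  obtain ⟨N₁, g₁⟩ := many hκ₁ h₁ Q hQ G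
    (fun c => (∀ k, (Q₀ : ℤ) ∣ c k - c₀ k) ∧ Typical V Γ (c : Coeffs m D)) hclass
  refine ⟨N₁, fun N hN => ?_⟩
  have k₁ := g₁ N hN
  rw [Nat.card_Ioc] at k₁
  have e : ((2 * N - N : ℕ) : ℝ) = N := by
    have : 2 * N - N = N := by omega
    rw [this]
  rw [e] at k₁
  exact k₁

end Pool.Agent.Results.MP_130685_nt.FunctionsOfGivenOrder
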